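import Pool.Agent.Q68.BC.Lap
open MeasureTheory Set Filter Topology
open scoped ContDiff
noncomputable section
namespace Pool.Agent.Q68.BC

variable {n : ℕ}

lemma two_le_inf : (2 : WithTop ℕ∞) ≤ ∞ := WithTop.coe_le_coe.2 (le_top : (2:ℕ∞) ≤ ⊤)

/-- The powers of `|y|^2 + ε^2`. -/
def kp (ε p : ℝ) (y : E n) : ℝ := (‖y‖ ^ 2 + ε ^ 2) ^ p

lemma base_pos {ε : ℝ} (hε : 0 < ε) (y : E n) : 0 < ‖y‖ ^ 2 + ε ^ 2 := by positivity

lemma kp_pos {ε : ℝ} (hε : 0 < ε) (p : ℝ) (y : E n) : 0 < kp ε p y :=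
  Real.rpow_pos_of_pos (base_pos hε y) p

lemma kp_contDiff {ε : ℝ} (hε : 0 < ε) (p : ℝ) : ContDiff ℝ ∞ (kp (n := n) ε p) := by
  unfold kp
  exact ((contDiff_norm_sq ℝ).add contDiff_const).rpow_const_of_ne
    (fun y => (base_pos hε y).ne')

lemma pd_kp {ε : ℝ} (hε : 0 < ε) (p : ℝ) (i : Fin n) (y : E n) :
    pd i (kp ε p) y = 2 * p * y i * kp ε (p - 1) y := by
  have h1 : HasFDerivAt (fun x : E n => ‖x‖ ^ 2 + ε ^ 2) (2 • (innerSL ℝ y)) y :=
    (hasStrictFDerivAt_norm_sq y).hasFDerivAt.add_const _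
  have h2 : HasDerivAt (fun t : ℝ => t ^ p) (p * (‖y‖ ^ 2 + ε ^ 2) ^ (p - 1)) (‖y‖ ^ 2 + ε ^ 2) :=
    Real.hasDerivAt_rpow_const (Or.inl (base_pos hε y).ne')
  have h3 := h2.comp_hasFDerivAt y h1
  have h4 : fderiv ℝ (kp ε p) y = (p * (‖y‖ ^ 2 + ε ^ 2) ^ (p - 1)) • (2 • (innerSL ℝ y)) :=
    h3.fderiv
  unfold pd
  rw [h4]
  simp only [smul_apply, innerSL_apply_apply, ev, kp,
    EuclideanSpace.inner_single_right]
  simp
  ring

lemma kp_succ {ε : ℝ} (hε : 0 < ε) (p : ℝ) (y : E n) :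
    kp ε (p + 1) y = kp ε p y * (‖y‖ ^ 2 + ε ^ 2) := by
  unfold kp
  rw [Real.rpow_add_one (base_pos hε y).ne']

lemma sum_sq (y : E n) : ∑ i, y i ^ 2 = ‖y‖ ^ 2 := by
  rw [EuclideanSpace.norm_sq_eq]
  simp

lemma pd_coord (i : Fin n) (y : E n) : pd i (fun y => y i) y = 1 := by
  unfold pd
  have : HasFDerivAt (fun y : E n => y i) (EuclideanSpace.proj (𝕜 := ℝ) i) y :=
    (EuclideanSpace.proj i : E n →L[ℝ] ℝ).hasFDerivAt
  rw [this.fderiv]
  simp [ev]

lemma lap_kp {ε : ℝ} (hε : 0 < ε) (p : ℝ) (y : E n) :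
    lap (kp ε p) y = 2 * p * n * kp ε (p - 1) y + 4 * p * (p - 1) * ‖y‖ ^ 2 * kp ε (p - 2) y := by
  unfold lap
  have h : ∀ i : Fin n, pd i (pd i (kp ε p)) y
      = 2 * p * kp ε (p - 1) y + 4 * p * (p - 1) * kp ε (p - 2) y * y i ^ 2 := by
    intro i
    have e : pd i (kp ε p) = fun y : E n => (2 * p * y i) * kp ε (p - 1) y := by
      ext z; exact pd_kp hε p i z
    have d1 : Differentiable ℝ (fun y : E n => y i) :=
      (EuclideanSpace.proj i : E n →L[ℝ] ℝ).differentiable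
    have d2 : Differentiable ℝ (fun y : E n => 2 * p * y i) := d1.const_mul _
    have d3 : Differentiable ℝ (kp (n := n) ε (p - 1)) :=
      (kp_contDiff hε (p - 1)).differentiable (by norm_num)
    rw [e, pd_mul (d2 y) (d3 y), pd_kp hε]
    have e2 : pd i (fun y : E n => 2 * p * y i) y = 2 * p := by
      have := pd_coord i y
      unfold pd at this ⊢
      rw [fderiv_const_mul (d1 y)]
      simp only [smul_apply, smul_eq_mul, this, mul_one]
    rw [e2]
    have : p - 1 - 1 = p - 2 := by ring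
    rw [this]
    ring
  rw [Finset.sum_congr rfl fun i _ => h i, Finset.sum_add_distrib, ← Finset.mul_sum,
    ← Finset.mul_sum, sum_sq]
  simp
  ring

/-- The kernel. -/
def K (n : ℕ) (ε : ℝ) : E n → ℝ := kp ε ((2 - n) / 2)

/-- Minus the Laplacian of the kernel. -/
def psi (n : ℕ) (ε : ℝ) (y : E n) : ℝ := n * (n - 2) * ε ^ 2 * kp ε (-(n + 2) / 2) y

lemma lap_K {ε : ℝ} (hε : 0 < ε) (y : E n) : lap (K n ε) y = - psi n ε y := by
  unfold K psi
  rw [lap_kp hε]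
  have e1 : ((2:ℝ) - n) / 2 - 2 = -(n + 2) / 2 := by ring
  have e2 : ((2:ℝ) - n) / 2 - 1 = -(n + 2) / 2 + 1 := by ring
  rw [e1, e2, kp_succ hε]
  ring

lemma psi_scale {ε : ℝ} (hε : 0 < ε) (y : E n) :
    psi n ε y = (ε ^ n)⁻¹ * psi n 1 (ε⁻¹ • y) := by
  unfold psi kp
  have hb := base_pos hε y
  have e1 : ‖ε⁻¹ • y‖ ^ 2 + 1 ^ 2 = (‖y‖ ^ 2 + ε ^ 2) * (ε ^ 2)⁻¹ := by
    rw [norm_smul, norm_inv, Real.norm_of_nonneg hε.le]
    field_simp
  rw [e1, Real.mul_rpow hb.le (by positivity), Real.inv_rpow (by positivity),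
    ← Real.rpow_neg (by positivity)]
  have e2 : ((ε:ℝ) ^ 2) ^ (-(-((n:ℝ) + 2) / 2)) = ε ^ (n + 2) := by
    rw [← Real.rpow_natCast ε 2, ← Real.rpow_mul hε.le, ← Real.rpow_natCast ε (n + 2)]
    congr 1
    push_cast
    ring
  rw [e2, pow_add]
  field_simp

lemma psi_nonneg (hn : 2 ≤ n) {ε : ℝ} (hε : 0 < ε) (y : E n) : 0 ≤ psi n ε y := by
  unfold psi
  have h2 : (2:ℝ) ≤ n := by exact_mod_cast hn
  have := (kp_pos hε (-(n + 2) / 2) y).le
  have h3 : (0:ℝ) ≤ n - 2 := by linarith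
  positivity

lemma psi_continuous {ε : ℝ} (hε : 0 < ε) : Continuous (psi n ε) := by
  unfold psi
  exact continuous_const.mul (kp_contDiff hε _).continuous

lemma psi_one_integrable : Integrable (psi n 1) := by
  have h := integrable_rpow_neg_one_add_norm_sq (E := E n) (μ := volume) (r := (n:ℝ) + 2)
    (by simp)
  have e : psi n 1 = fun y => ((n:ℝ) * (n - 2)) * ((1:ℝ) + ‖y‖ ^ 2) ^ (-((n:ℝ) + 2) / 2) := by
    ext y
    unfold psi kp
    rw [one_pow, mul_one, add_comm (‖y‖ ^ 2) 1]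
  rw [e]
  exact h.const_mul _

lemma psi_integrable {ε : ℝ} (hε : 0 < ε) : Integrable (psi n ε) := by
  have e : psi n ε = fun y => (ε ^ n)⁻¹ * psi n 1 (ε⁻¹ • y) := by ext y; exact psi_scale hε y
  rw [e]
  exact (psi_one_integrable.comp_smul (inv_ne_zero hε.ne')).const_mul _

lemma integral_psi {ε : ℝ} (hε : 0 < ε) : ∫ y, psi n ε y = ∫ y, psi n 1 y := by
  have e : psi n ε = fun y => (ε ^ n)⁻¹ * psi n 1 (ε⁻¹ • y) := by ext y; exact psi_scale hε y
  rw [e, integral_const_mul, Measure.integral_comp_smul]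
  rw [finrank_euclideanSpace_fin, smul_eq_mul, abs_of_nonneg (by positivity), inv_pow, inv_inv,
    ← mul_assoc, inv_mul_cancel₀ (by positivity), one_mul]

lemma integral_psi_pos (hn : 3 ≤ n) : 0 < ∫ y, psi n 1 y := by
  have h2 : (3:ℝ) ≤ n := by exact_mod_cast hn
  have hp : ∀ y : E n, 0 < psi n 1 y := by
    intro y
    unfold psi
    have := kp_pos (n := n) one_pos (-(n + 2) / 2) y
    have h3 : (0:ℝ) < n - 2 := by linarith
    positivity
  rw [integral_pos_iff_support_of_nonneg (fun y => (hp y).le) psi_one_integrable]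
  have : Function.support (psi n 1) = univ := by
    ext y; simp [(hp y).ne']
  rw [this]
  exact isOpen_univ.measure_pos volume univ_nonempty

lemma kp_le {ε R p : ℝ} (hR : 0 < R) (hp : p ≤ 0) {y : E n} (hy : R ≤ ‖y‖) :
    kp ε p y ≤ (R ^ 2) ^ p := by
  unfold kp
  refine Real.rpow_le_rpow_of_nonpos (by positivity) ?_ hp
  have := pow_le_pow_left₀ hR.le hy 2
  nlinarith [sq_nonneg ε]

/-- The standard bump. -/
def bmp (n : ℕ) : ContDiffBump (0 : E n) := ⟨1, 2, one_pos, one_lt_two⟩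

/-- The cutoff at scale `R`. -/
def zet (n : ℕ) (R : ℝ) (y : E n) : ℝ := bmp n (0 + R⁻¹ • y)

lemma zet_contDiff (R : ℝ) : ContDiff ℝ ∞ (zet n R) := by
  unfold zet
  exact (bmp n).contDiff.comp (contDiff_const.add (contDiff_id.const_smul R⁻¹))

lemma zet_nonneg (R : ℝ) (y : E n) : 0 ≤ zet n R y := (bmp n).nonneg

lemma zet_le_one (R : ℝ) (y : E n) : zet n R y ≤ 1 := (bmp n).le_one

lemma zet_one {R : ℝ} (hR : 0 < R) {y : E n} (hy : ‖y‖ ≤ R) : zet n R y = 1 := by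
  unfold zet
  refine (bmp n).one_of_mem_closedBall ?_
  rw [mem_closedBall_zero_iff, zero_add, norm_smul, norm_inv, Real.norm_of_nonneg hR.le]
  change R⁻¹ * ‖y‖ ≤ 1
  rw [inv_mul_le_iff₀ hR]; simpa using hy

lemma zet_zero {R : ℝ} (hR : 0 < R) {y : E n} (hy : 2 * R ≤ ‖y‖) : zet n R y = 0 := by
  unfold zet
  refine (bmp n).zero_of_le_dist ?_
  rw [dist_zero_right, zero_add, norm_smul, norm_inv, Real.norm_of_nonneg hR.le]
  change 2 ≤ R⁻¹ * ‖y‖
  rw [le_inv_mul_iff₀ hR]; linarith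

lemma zet_support {R : ℝ} (hR : 0 < R) : HasCompactSupport (zet n R) := by
  refine HasCompactSupport.intro (isCompact_closedBall (0 : E n) (2 * R)) ?_
  intro y hy
  refine zet_zero hR ?_
  rw [mem_closedBall_zero_iff] at hy
  linarith

lemma bmp_smooth : ContDiff ℝ ∞ (bmp n : E n → ℝ) := (bmp n).contDiff

lemma pd_zet (R : ℝ) (i : Fin n) (y : E n) :
    pd i (zet n R) y = R⁻¹ * pd i (bmp n : E n → ℝ) (0 + R⁻¹ • y) :=
  pd_affine 0 R⁻¹ i y ((bmp_smooth.differentiable (by norm_num)) _)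

lemma lap_zet (R : ℝ) (y : E n) :
    lap (zet n R) y = (R⁻¹) ^ 2 * lap (bmp n : E n → ℝ) (0 + R⁻¹ • y) :=
  lap_affine (bmp_smooth.of_le two_le_inf) 0 R⁻¹ y

/-- The bounds for the derivatives of the bump. -/
lemma bmp_bound : ∃ C : ℝ, 0 ≤ C ∧ (∀ i : Fin n, ∀ y, |pd i (bmp n : E n → ℝ) y| ≤ C) ∧
    ∀ y, |lap (bmp n : E n → ℝ) y| ≤ C := by
  have hs := (bmp n).hasCompactSupport
  have h1 : ∀ i : Fin n, ∃ C : ℝ, ∀ y, ‖pd i (bmp n : E n → ℝ) y‖ ≤ C := fun i =>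
    (pd_support hs i).exists_bound_of_continuous
      (pd_contDiff (m := 0) (k := ∞) bmp_smooth (by norm_num) i).continuous
  have h2 : ∃ C : ℝ, ∀ y, ‖lap (bmp n : E n → ℝ) y‖ ≤ C :=
    (lap_support hs).exists_bound_of_continuous (lap_continuous (bmp_smooth.of_le two_le_inf))
  choose C hC using h1
  obtain ⟨D, hD⟩ := h2
  refine ⟨(∑ i, |C i|) + |D|, by positivity, ?_, ?_⟩
  · intro i y
    have a1 := hC i y
    rw [Real.norm_eq_abs] at a1
    have a2 : |C i| ≤ ∑ i, |C i| := Finset.single_le_sum (f := fun i => |C i|)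
      (fun i _ => abs_nonneg _) (Finset.mem_univ i)
    have := le_abs_self (C i)
    have := abs_nonneg D
    linarith
  · intro y
    have a1 := hD y
    rw [Real.norm_eq_abs] at a1
    have a2 : 0 ≤ ∑ i, |C i| := Finset.sum_nonneg fun i _ => abs_nonneg _
    have := le_abs_self D
    linarith

/-- The truncated kernel. -/
def KR (n : ℕ) (ε R : ℝ) (y : E n) : ℝ := K n ε y * zet n R y

/-- The error term in the Laplacian of the truncated kernel. -/
def er (n : ℕ) (ε R : ℝ) (y : E n) : ℝ :=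
  2 * ∑ i, pd i (K n ε) y * pd i (zet n R) y + K n ε y * lap (zet n R) y

lemma K_contDiff {ε : ℝ} (hε : 0 < ε) : ContDiff ℝ ∞ (K n ε) := kp_contDiff hε _

lemma KR_contDiff {ε R : ℝ} (hε : 0 < ε) : ContDiff ℝ ∞ (KR n ε R) :=
  (K_contDiff hε).mul (zet_contDiff R)

lemma KR_support {ε R : ℝ} (hR : 0 < R) : HasCompactSupport (KR n ε R) :=
  (zet_support hR).mul_left

lemma KR_nonneg {ε R : ℝ} (hε : 0 < ε) (y : E n) : 0 ≤ KR n ε R y :=
  mul_nonneg (kp_pos hε _ y).le (zet_nonneg R y)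

lemma lap_KR {ε R : ℝ} (hε : 0 < ε) (y : E n) :
    lap (KR n ε R) y = - (psi n ε y * zet n R y) + er n ε R y := by
  have := lap_mul (f := K n ε) (g := zet n R) ((K_contDiff hε).of_le two_le_inf)
    ((zet_contDiff R).of_le two_le_inf) y
  unfold KR er
  rw [this, lap_K hε]
  ring

lemma lap_KR_in {ε R : ℝ} (hε : 0 < ε) (hR : 0 < R) {y : E n} (hy : ‖y‖ < R) :
    lap (KR n ε R) y = - psi n ε y := by
  have : KR n ε R =ᶠ[𝓝 y] K n ε := by
    have h1 : ∀ᶠ z in 𝓝 y, ‖z‖ < R := (continuous_norm.tendsto y).eventually_lt_const hy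
    filter_upwards [h1] with z hz
    unfold KR
    rw [zet_one hR hz.le, mul_one]
  rw [lap_congr this, lap_K hε]

lemma er_continuous {ε R : ℝ} (hε : 0 < ε) : Continuous (er n ε R) := by
  unfold er
  refine Continuous.add (continuous_const.mul (continuous_finsetSum _ fun i _ => ?_)) ?_
  · exact (pd_contDiff (m := 0) (k := ∞) (K_contDiff hε) (by norm_num) i).continuous.mul
      (pd_contDiff (m := 0) (k := ∞) (zet_contDiff R) (by norm_num) i).continuous
  · exact (K_contDiff hε).continuous.mul (lap_continuous ((zet_contDiff R).of_le two_le_inf))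

lemma er_zero {ε R : ℝ} (hR : 0 < R) {y : E n} (hy : ‖y‖ < R ∨ 2 * R < ‖y‖) :
    er n ε R y = 0 := by
  have h : ∃ c : ℝ, zet n R =ᶠ[𝓝 y] fun _ => c := by
    rcases hy with hy | hy
    · refine ⟨1, ?_⟩
      have h1 : ∀ᶠ z in 𝓝 y, ‖z‖ < R := (continuous_norm.tendsto y).eventually_lt_const hy
      filter_upwards [h1] with z hz
      exact zet_one hR hz.le
    · refine ⟨0, ?_⟩
      have h1 : ∀ᶠ z in 𝓝 y, 2 * R < ‖z‖ := (continuous_norm.tendsto y).eventually_const_lt hy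
      filter_upwards [h1] with z hz
      exact zet_zero hR hz.le
  obtain ⟨c, hc⟩ := h
  unfold er
  rw [lap_congr hc, lap_const]
  have : ∀ i ∈ (Finset.univ : Finset (Fin n)), pd i (K n ε) y * pd i (zet n R) y = 0 := by
    intro i _
    rw [pd_congr hc, pd_const, mul_zero]
  rw [Finset.sum_eq_zero this]
  ring

/-- The error term is small in `L^2`. -/
lemma er_bound (hn : 3 ≤ n) : ∃ C : ℝ, 0 ≤ C ∧ ∀ ε R : ℝ, 0 < ε → 0 < R →
    ∀ y : E n, |er n ε R y| ≤ C * (R ^ n)⁻¹ := by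
  obtain ⟨C, hC0, hC1, hC2⟩ := bmp_bound (n := n)
  have h3 : (3:ℝ) ≤ n := by exact_mod_cast hn
  refine ⟨(2 * (n * (((n:ℝ) - 2) * 2 * C)) + C), ?_, ?_⟩
  · have : (0:ℝ) ≤ n - 2 := by linarith
    positivity
  intro ε R hε hR y
  have hn2 : (0:ℝ) ≤ n - 2 := by linarith
  by_cases hy : ‖y‖ < R ∨ 2 * R < ‖y‖
  · rw [er_zero hR hy, abs_zero]; positivity
  push Not at hy
  obtain ⟨hy1, hy2⟩ := hy
  have hRn : (0:ℝ) < (R ^ n)⁻¹ := by positivity
  -- the kernel
  have k1 : K n ε y ≤ R ^ 2 * (R ^ n)⁻¹ := by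
    refine (kp_le hR (by linarith) hy1).trans (le_of_eq ?_)
    rw [← Real.rpow_natCast R 2, ← Real.rpow_mul hR.le, ← Real.rpow_natCast R n,
      ← Real.rpow_neg hR.le, ← Real.rpow_add hR]
    congr 1; push_cast; ring
  have k0 : 0 ≤ K n ε y := (kp_pos hε _ y).le
  have k2 : ∀ i, |pd i (K n ε) y| ≤ (n - 2) * 2 * R * (R ^ n)⁻¹ := by
    intro i
    unfold K
    rw [pd_kp hε, abs_mul, abs_mul, abs_of_pos (kp_pos hε _ y)]
    have a1 : |2 * (((2:ℝ) - n) / 2)| = n - 2 := by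
      rw [show 2 * (((2:ℝ) - n) / 2) = -(n - 2) by ring, abs_neg, abs_of_nonneg hn2]
    have a2 : |y i| ≤ 2 * R := by
      have h5 : y i ^ 2 ≤ ‖y‖ ^ 2 := by
        rw [← sum_sq]
        exact Finset.single_le_sum (f := fun i => y i ^ 2) (fun i _ => sq_nonneg _)
          (Finset.mem_univ i)
      have := abs_le_of_sq_le_sq h5 (norm_nonneg _)
      linarith
    have a3 : kp ε ((2 - (n:ℝ)) / 2 - 1) y ≤ (R ^ n)⁻¹ := by
      refine (kp_le hR (by linarith) hy1).trans (le_of_eq ?_)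
      rw [← Real.rpow_natCast R 2, ← Real.rpow_mul hR.le, ← Real.rpow_natCast R n,
        ← Real.rpow_neg hR.le]
      congr 1; push_cast; ring
    rw [a1]
    calc ((n:ℝ) - 2) * |y i| * kp ε ((2 - (n:ℝ)) / 2 - 1) y
        ≤ ((n:ℝ) - 2) * (2 * R) * (R ^ n)⁻¹ := by
          have := (kp_pos hε ((2 - (n:ℝ)) / 2 - 1) y).le
          gcongr
      _ = _ := by ring
  have z1 : ∀ i, |pd i (zet n R) y| ≤ R⁻¹ * C := by
    intro i
    rw [pd_zet, abs_mul, abs_of_nonneg (by positivity)]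
    exact mul_le_mul_of_nonneg_left (hC1 i _) (by positivity)
  have z2 : |lap (zet n R) y| ≤ (R⁻¹) ^ 2 * C := by
    rw [lap_zet, abs_mul, abs_of_nonneg (by positivity)]
    exact mul_le_mul_of_nonneg_left (hC2 _) (by positivity)
  unfold er
  have s1 : |∑ i, pd i (K n ε) y * pd i (zet n R) y|
      ≤ n * (((n:ℝ) - 2) * 2 * C * (R ^ n)⁻¹) := by
    refine (Finset.abs_sum_le_sum_abs _ _).trans ?_
    have : ∀ i ∈ (Finset.univ : Finset (Fin n)), |pd i (K n ε) y * pd i (zet n R) y|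
        ≤ ((n:ℝ) - 2) * 2 * C * (R ^ n)⁻¹ := by
      intro i _
      rw [abs_mul]
      calc |pd i (K n ε) y| * |pd i (zet n R) y|
          ≤ ((n - 2) * 2 * R * (R ^ n)⁻¹) * (R⁻¹ * C) :=
            mul_le_mul (k2 i) (z1 i) (abs_nonneg _) (by positivity)
        _ = _ := by field_simp
    refine (Finset.sum_le_sum this).trans ?_
    simp
  have s2 : |K n ε y * lap (zet n R) y| ≤ C * (R ^ n)⁻¹ := by
    rw [abs_mul, abs_of_nonneg k0]
    calc K n ε y * |lap (zet n R) y| ≤ (R ^ 2 * (R ^ n)⁻¹) * ((R⁻¹) ^ 2 * C) :=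
          mul_le_mul k1 z2 (abs_nonneg _) (by positivity)
      _ = _ := by field_simp
  calc |2 * ∑ i, pd i (K n ε) y * pd i (zet n R) y + K n ε y * lap (zet n R) y|
      ≤ |2 * ∑ i, pd i (K n ε) y * pd i (zet n R) y| + |K n ε y * lap (zet n R) y| := abs_add_le _ _
    _ ≤ 2 * (n * (((n:ℝ) - 2) * 2 * C * (R ^ n)⁻¹)) + C * (R ^ n)⁻¹ := by
        rw [abs_mul, abs_two]
        gcongr
    _ = _ := by ring

lemma er_L2 (hn : 3 ≤ n) : ∃ C : ℝ, 0 ≤ C ∧ ∀ ε R : ℝ, 0 < ε → 0 < R →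
    ∫ y : E n, (er n ε R y) ^ 2 ≤ C * (R ^ n)⁻¹ := by
  obtain ⟨C, hC0, hC⟩ := er_bound hn
  refine ⟨C ^ 2 * (2 ^ n * volume.real (Metric.ball (0 : E n) 1)), by positivity, ?_⟩
  intro ε R hε hR
  have h1 : ∀ y : E n, (er n ε R y) ^ 2
      ≤ (Metric.closedBall (0 : E n) (2 * R)).indicator (fun _ => (C * (R ^ n)⁻¹) ^ 2) y := by
    intro y
    by_cases hy : y ∈ Metric.closedBall (0 : E n) (2 * R)
    · rw [indicator_of_mem hy, ← sq_abs]
      exact pow_le_pow_left₀ (abs_nonneg _) (hC ε R hε hR y) 2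
    · rw [indicator_of_notMem hy]
      rw [mem_closedBall_zero_iff, not_le] at hy
      rw [er_zero hR (Or.inr hy)]; norm_num
  have hfin : volume (Metric.closedBall (0 : E n) (2 * R)) ≠ ⊤ :=
    (isCompact_closedBall _ _).measure_lt_top.ne
  have h2 : Integrable ((Metric.closedBall (0 : E n) (2 * R)).indicator
      (fun _ => (C * (R ^ n)⁻¹) ^ 2)) := by
    rw [integrable_indicator_iff Metric.isClosed_closedBall.measurableSet]
    exact integrableOn_const hfin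
  calc ∫ y : E n, (er n ε R y) ^ 2
      ≤ ∫ y, (Metric.closedBall (0 : E n) (2 * R)).indicator (fun _ => (C * (R ^ n)⁻¹) ^ 2) y :=
        integral_mono_of_nonneg (Eventually.of_forall fun y => sq_nonneg _) h2
          (Eventually.of_forall h1)
    _ = volume.real (Metric.closedBall (0 : E n) (2 * R)) * (C * (R ^ n)⁻¹) ^ 2 := by
        rw [integral_indicator Metric.isClosed_closedBall.measurableSet]
        simp [Measure.real]
    _ = _ := by
        have : volume.real (Metric.closedBall (0 : E n) (2 * R))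
            = (2 * R) ^ n * volume.real (Metric.ball (0 : E n) 1) := by
          unfold Measure.real
          rw [Measure.addHaar_closedBall _ _ (by positivity), ENNReal.toReal_mul,
            finrank_euclideanSpace_fin, ENNReal.toReal_ofReal (by positivity)]
        rw [this, mul_pow 2 R]
        field_simp

end Pool.Agent.Q68.BC
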