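import Pool.Agent.Q68.BC.Conv
import Pool.Agent.Q68.BC.Kernel
open MeasureTheory Set Filter Topology
open scoped ContDiff
noncomputable section
namespace Pool.Agent.Q68.BC

variable {n : ℕ}

lemma cv_psi {ε : ℝ} (hε : 0 < ε) (W : E n → ℝ) (x : E n) :
    cv W (psi n ε) x = ∫ z, psi n 1 z * W (x - ε • z) := by
  rw [cv_comm]
  unfold cv
  have e1 : (fun y => psi n ε y * W (x - y))
      = fun y => (ε ^ n)⁻¹ * (fun z => psi n 1 z * W (x - ε • z)) (ε⁻¹ • y) := by
    ext y
    simp only
    rw [psi_scale hε y, smul_inv_smul₀ hε.ne']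
    ring
  rw [e1, integral_const_mul,
    Measure.integral_comp_smul volume (fun z => psi n 1 z * W (x - ε • z)) ε⁻¹]
  rw [finrank_euclideanSpace_fin, smul_eq_mul, abs_of_nonneg (by positivity), inv_pow, inv_inv,
    ← mul_assoc, inv_mul_cancel₀ (by positivity), one_mul]

lemma cv_psi_bound (hn : 3 ≤ n) {ε : ℝ} (hε : 0 < ε) {W : E n → ℝ} (hW : Continuous W) {M : ℝ}
    (hM : ∀ x, |W x| ≤ M) (x : E n) : |cv W (psi n ε) x| ≤ M * ∫ z, psi n 1 z := by
  rw [cv_psi hε]
  have h1 : Integrable (fun z => psi n 1 z * W (x - ε • z)) :=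
    psi_one_integrable.mul_bdd (c := M)
      (hW.comp (continuous_const.sub (continuous_id.const_smul ε))).aestronglyMeasurable
      (Eventually.of_forall fun z => hM _)
  rw [← integral_const_mul]
  have h2 : |∫ z, psi n 1 z * W (x - ε • z)| ≤ ∫ z, ‖psi n 1 z * W (x - ε • z)‖ :=
    norm_integral_le_integral_norm (fun z => psi n 1 z * W (x - ε • z))
  refine h2.trans ?_
  refine integral_mono h1.norm (psi_one_integrable.const_mul _) fun z => ?_
  simp only
  have h0 := psi_nonneg (n := n) (by omega) one_pos z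
  rw [norm_mul, Real.norm_of_nonneg h0, mul_comm]
  exact mul_le_mul_of_nonneg_right (hM _) h0

lemma cv_psi_nonneg (hn : 3 ≤ n) {ε : ℝ} (hε : 0 < ε) {W : E n → ℝ} (hW : ∀ x, 0 ≤ W x)
    (x : E n) : 0 ≤ cv W (psi n ε) x := by
  unfold cv
  exact integral_nonneg fun y => mul_nonneg (hW y) (psi_nonneg (by omega) hε _)

lemma cv_psi_tendsto (hn : 3 ≤ n) {W : E n → ℝ} (hW : Continuous W) {M : ℝ}
    (hM : ∀ x, |W x| ≤ M) (x : E n) :
    Tendsto (fun k : ℕ => cv W (psi n (1 / ((k:ℝ) + 1))) x) atTop
      (𝓝 ((∫ z, psi n 1 z) * W x)) := by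
  have hpos : ∀ k : ℕ, 0 < 1 / ((k:ℝ) + 1) := fun k => by positivity
  have e : (fun k : ℕ => cv W (psi n (1 / ((k:ℝ) + 1))) x)
      = fun k : ℕ => ∫ z, psi n 1 z * W (x - (1 / ((k:ℝ) + 1)) • z) := by
    ext k; exact cv_psi (hpos k) W x
  rw [e, ← integral_mul_const]
  refine tendsto_integral_of_dominated_convergence (fun z => psi n 1 z * M) ?_
    (psi_one_integrable.mul_const _) ?_ ?_
  · intro k
    exact ((psi_continuous one_pos).mul
      (hW.comp (continuous_const.sub
        (continuous_id.const_smul (1 / ((k:ℝ) + 1)))))).aestronglyMeasurable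
  · intro k
    refine Eventually.of_forall fun z => ?_
    have h0 := psi_nonneg (n := n) (by omega) one_pos z
    rw [norm_mul, Real.norm_of_nonneg h0]
    exact mul_le_mul_of_nonneg_left (hM _) h0
  · refine Eventually.of_forall fun z => ?_
    refine Tendsto.const_mul _ ?_
    have h1 : Tendsto (fun k : ℕ => (1 / ((k:ℝ) + 1))) atTop (𝓝 0) :=
      tendsto_one_div_add_atTop_nhds_zero_nat
    have h2 : Tendsto (fun k : ℕ => x - (1 / ((k:ℝ) + 1)) • z) atTop (𝓝 (x - (0:ℝ) • z)) :=
      tendsto_const_nhds.sub (h1.smul_const z)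
    rw [zero_smul, sub_zero] at h2
    exact (hW.tendsto x).comp h2

lemma sq_add_le {a b A B τ : ℝ} (hτ : 0 < τ) (h : |a| ≤ A + |b|) (_hA : 0 ≤ A) (hB : b ^ 2 = B) :
    a ^ 2 ≤ (1 + τ) * A ^ 2 + (1 + τ⁻¹) * B := by
  have h1 : a ^ 2 ≤ (A + |b|) ^ 2 := by
    rw [← sq_abs]; exact pow_le_pow_left₀ (abs_nonneg _) h 2
  have h2 : |b| ^ 2 = B := by rw [sq_abs, hB]
  have h3 : 2 * (A * |b|) ≤ τ * A ^ 2 + τ⁻¹ * |b| ^ 2 := by
    have h4 : 0 ≤ τ⁻¹ * (τ * A - |b|) ^ 2 := by positivity
    have h5 : τ⁻¹ * (τ * A - |b|) ^ 2 = τ * A ^ 2 - 2 * (A * |b|) + τ⁻¹ * |b| ^ 2 := by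
      field_simp
      ring
    linarith
  have h6 : (A + |b|) ^ 2 = A ^ 2 + 2 * (A * |b|) + |b| ^ 2 := by ring
  rw [h6] at h1
  rw [← h2]
  linarith

/-- **The comparison principle in integrated form.** -/
theorem comparison (hn : 3 ≤ n) {q : ℝ} (hq : 0 < q) {S : ℝ} (hS0 : 0 ≤ S)
    (hS : ∀ w : E n → ℝ, ContDiff ℝ ∞ w → HasCompactSupport w →
      S * (∫ x, |w x| ^ q) ^ (2 / q) ≤ ∫ x, lap w x ^ 2)
    {W G : E n → ℝ} (hW : Continuous W) (hWs : HasCompactSupport W) (hW0 : ∀ x, 0 ≤ W x)
    (hGm : Measurable G) (hG0 : ∀ x, 0 ≤ G x) {M : ℝ} (hGb : ∀ x, G x ≤ M)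
    (hGs : HasCompactSupport G)
    (hD : ∀ φ : E n → ℝ, ContDiff ℝ 2 φ → (∀ x, 0 ≤ φ x) →
      - ∫ x, W x * lap φ x ≤ ∫ x, G x * φ x) :
    S * (∫ x, |W x| ^ q) ^ (2 / q) ≤ ∫ x, G x ^ 2 := by
  have hGa : ∀ x, |G x| ≤ M := fun x => by rw [abs_of_nonneg (hG0 x)]; exact hGb x
  have hGfin : volume (tsupport G) < ⊤ := hGs.isCompact.measure_lt_top
  have hGi : Integrable G := by
    have h1 : IntegrableOn G (tsupport G) :=
      Measure.integrableOn_of_bounded hGfin.ne hGm.aestronglyMeasurable
        (Eventually.of_forall fun x => by rw [Real.norm_eq_abs]; exact hGa x)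
    rwa [integrableOn_iff_integrable_of_support_subset (subset_tsupport G)] at h1
  have hG2 : Integrable (fun x => G x ^ 2) := by
    have : (fun x => G x ^ 2) = fun x => G x * G x := by ext x; ring
    rw [this]
    exact hGi.mul_bdd (c := M) hGm.aestronglyMeasurable (Eventually.of_forall hGa)
  obtain ⟨c, hcdef⟩ : ∃ c, c = ∫ z, psi n 1 z := ⟨_, rfl⟩
  have hc : 0 < c := by rw [hcdef]; exact integral_psi_pos hn
  obtain ⟨ρ, hρ0, hρ⟩ : ∃ ρ : ℝ, 0 < ρ ∧ ∀ x, W x ≠ 0 → ‖x‖ ≤ ρ := by
    obtain ⟨ρ, hρ⟩ := hWs.isCompact.isBounded.subset_closedBall (0 : E n)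
    refine ⟨|ρ| + 1, by positivity, fun x hx => ?_⟩
    have := hρ (subset_tsupport W hx)
    rw [mem_closedBall_zero_iff] at this
    have := le_abs_self ρ
    linarith
  obtain ⟨MW, hMW⟩ : ∃ MW : ℝ, ∀ x, |W x| ≤ MW := hWs.exists_bound_of_continuous hW
  have hMW0 : 0 ≤ MW := (abs_nonneg _).trans (hMW 0)
  obtain ⟨C, hC0, hC⟩ := er_L2 hn
  -- the estimate at fixed scales
  have step1 : ∀ ε R τ : ℝ, 0 < ε → 2 * ρ < R → 0 < τ →
      S * (∫ x in Metric.closedBall (0 : E n) ρ, |cv W (psi n ε) x| ^ q) ^ (2 / q)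
        ≤ (1 + τ) * (c ^ 2 * ∫ x, G x ^ 2)
          + (1 + τ⁻¹) * ((∫ x, G x) ^ 2 * (C * (R ^ n)⁻¹)) := by
    intro ε R τ hε hR hτ
    have hR0 : 0 < R := by linarith
    have kc : ContDiff ℝ ∞ (KR n ε R) := KR_contDiff hε
    have ks : HasCompactSupport (KR n ε R) := KR_support hR0
    have wc : ContDiff ℝ ∞ (cv G (KR n ε R)) := cv_contDiff hGi.locallyIntegrable kc ks
    have ws : HasCompactSupport (cv G (KR n ε R)) := cv_support hGs ks
    have h1 := hS _ wc ws
    have hlap : lap (cv G (KR n ε R)) = cv G (lap (KR n ε R)) :=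
      lap_cv hGi.locallyIntegrable (kc.of_le two_le_inf) ks
    -- upper bound of the energy
    have y1 := young (psi_integrable (n := n) hε) (psi_nonneg (by omega) hε) hGm hGa hG2
    have y2 := young hGi hG0 (er_continuous (n := n) (R := R) hε).measurable
      (C := _) (fun x => (er_bound (n := n) hn).choose_spec.2 ε R hε hR0 x)
      (by
        have hs : HasCompactSupport (fun x => er n ε R x ^ 2) := by
          refine HasCompactSupport.intro (isCompact_closedBall (0 : E n) (2 * R)) ?_
          intro y hy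
          rw [mem_closedBall_zero_iff, not_le] at hy
          rw [er_zero hR0 (Or.inr hy)]; norm_num
        exact ((er_continuous hε).pow 2).integrable_of_hasCompactSupport hs)
    have hpt : ∀ x, lap (cv G (KR n ε R)) x ^ 2
        ≤ (1 + τ) * (cv (psi n ε) G x) ^ 2 + (1 + τ⁻¹) * (cv G (er n ε R) x) ^ 2 := by
      intro x
      rw [hlap]
      have hA0 : 0 ≤ cv (psi n ε) G x := by
        unfold cv
        exact integral_nonneg fun y => mul_nonneg (psi_nonneg (by omega) hε _) (hG0 _)
      refine sq_add_le hτ ?_ hA0 rfl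
      have i1 : Integrable (fun y => G y * (psi n ε (x - y) * zet n R (x - y))) := by
        refine hGi.mul_bdd (c := ?_) ?_ ?_
        · exact (kp_contDiff (n := n) hε 0 |>.continuous |> fun _ =>
            (((zet_support (n := n) hR0).mul_left (f := psi n ε)).exists_bound_of_continuous
              ((psi_continuous hε).mul (zet_contDiff R).continuous)).choose)
        · exact (((psi_continuous hε).mul (zet_contDiff R).continuous).comp
            (continuous_const.sub continuous_id)).aestronglyMeasurable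
        · exact Eventually.of_forall fun y =>
            (((zet_support (n := n) hR0).mul_left (f := psi n ε)).exists_bound_of_continuous
              ((psi_continuous hε).mul (zet_contDiff R).continuous)).choose_spec (x - y)
      have i2 : Integrable (fun y => G y * er n ε R (x - y)) :=
        hGi.mul_bdd (c := _) ((er_continuous hε).comp
          (continuous_const.sub continuous_id)).aestronglyMeasurable
          (Eventually.of_forall fun y =>
            (er_bound (n := n) hn).choose_spec.2 ε R hε hR0 (x - y))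
      have e1 : cv G (lap (KR n ε R)) x
          = - (∫ y, G y * (psi n ε (x - y) * zet n R (x - y))) + cv G (er n ε R) x := by
        unfold cv
        have j1 : Integrable (fun y => -(G y * (psi n ε (x - y) * zet n R (x - y)))) := i1.neg
        rw [← integral_neg, ← integral_add j1 i2]
        congr 1; ext y
        rw [lap_KR hε]; ring
      rw [e1]
      have e2 : 0 ≤ ∫ y, G y * (psi n ε (x - y) * zet n R (x - y)) :=
        integral_nonneg fun y => mul_nonneg (hG0 _)
          (mul_nonneg (psi_nonneg (by omega) hε _) (zet_nonneg R _))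
      have e3 : ∫ y, G y * (psi n ε (x - y) * zet n R (x - y)) ≤ cv (psi n ε) G x := by
        rw [cv_comm]
        unfold cv
        refine integral_mono i1 ?_ fun y => ?_
        · have hb : ∃ B, ∀ y : E n, ‖psi n ε y‖ ≤ B := by
            refine ⟨(n:ℝ) * (n - 2) * ε ^ 2 * (ε ^ 2) ^ (-((n:ℝ) + 2) / 2), fun y => ?_⟩
            have hn3 : (3:ℝ) ≤ n := by exact_mod_cast hn
            have hn2 : (0:ℝ) ≤ n - 2 := by linarith
            rw [Real.norm_of_nonneg (psi_nonneg (by omega) hε _)]
            unfold psi kp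
            refine mul_le_mul_of_nonneg_left ?_ (by positivity)
            refine Real.rpow_le_rpow_of_nonpos (by positivity) (by nlinarith [sq_nonneg ‖y‖]) ?_
            have : (0:ℝ) ≤ (n:ℝ) + 2 := by positivity
            linarith
          obtain ⟨B, hB⟩ := hb
          exact hGi.mul_bdd (c := B) ((psi_continuous hε).comp
            (continuous_const.sub continuous_id)).aestronglyMeasurable
            (Eventually.of_forall fun y => hB _)
        · refine mul_le_mul_of_nonneg_left ?_ (hG0 _)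
          exact mul_le_of_le_one_right (psi_nonneg (by omega) hε _) (zet_le_one R _)
      calc |-(∫ y, G y * (psi n ε (x - y) * zet n R (x - y))) + cv G (er n ε R) x|
          ≤ |-(∫ y, G y * (psi n ε (x - y) * zet n R (x - y)))| + |cv G (er n ε R) x| :=
            abs_add_le _ _
        _ ≤ cv (psi n ε) G x + |cv G (er n ε R) x| := by
            rw [abs_neg, abs_of_nonneg e2]; linarith
    have h2 : ∫ x, lap (cv G (KR n ε R)) x ^ 2
        ≤ (1 + τ) * (c ^ 2 * ∫ x, G x ^ 2)
          + (1 + τ⁻¹) * ((∫ x, G x) ^ 2 * (C * (R ^ n)⁻¹)) := by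
      calc ∫ x, lap (cv G (KR n ε R)) x ^ 2
          ≤ ∫ x, ((1 + τ) * (cv (psi n ε) G x) ^ 2 + (1 + τ⁻¹) * (cv G (er n ε R) x) ^ 2) :=
            integral_mono_of_nonneg (Eventually.of_forall fun x => sq_nonneg _)
              ((y1.1.const_mul _).add (y2.1.const_mul _)) (Eventually.of_forall hpt)
        _ = (1 + τ) * (∫ x, (cv (psi n ε) G x) ^ 2)
            + (1 + τ⁻¹) * ∫ x, (cv G (er n ε R) x) ^ 2 := by
            rw [integral_add (y1.1.const_mul _) (y2.1.const_mul _), integral_const_mul,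
              integral_const_mul]
        _ ≤ _ := by
            have a1 := y1.2
            rw [integral_psi hε, ← hcdef] at a1
            have a2 : ∫ x, (cv G (er n ε R) x) ^ 2 ≤ (∫ x, G x) ^ 2 * (C * (R ^ n)⁻¹) :=
              y2.2.trans (mul_le_mul_of_nonneg_left (hC ε R hε hR0) (sq_nonneg _))
            have t1 : 0 ≤ 1 + τ := by linarith
            have t2 : 0 ≤ 1 + τ⁻¹ := by positivity
            exact add_le_add (mul_le_mul_of_nonneg_left a1 t1) (mul_le_mul_of_nonneg_left a2 t2)
    -- lower bound of the norm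
    have h3 : ∀ x ∈ Metric.closedBall (0 : E n) ρ,
        |cv W (psi n ε) x| ^ q ≤ |cv G (KR n ε R) x| ^ q := by
      intro x hx
      rw [mem_closedBall_zero_iff] at hx
      have hw0 : 0 ≤ cv G (KR n ε R) x := by
        unfold cv
        exact integral_nonneg fun y => mul_nonneg (hG0 _) (KR_nonneg hε _)
      have hv0 := cv_psi_nonneg hn hε hW0 x
      rw [abs_of_nonneg hw0, abs_of_nonneg hv0]
      refine Real.rpow_le_rpow hv0 ?_ hq.le
      have e0 : (fun y => KR n ε R (x - y)) = fun y => KR n ε R (x + (-1 : ℝ) • y) := by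
        ext y; congr 1; rw [neg_one_smul, sub_eq_add_neg]
      have hφc : ContDiff ℝ 2 (fun y => KR n ε R (x - y)) :=
        (kc.of_le two_le_inf).comp (contDiff_const.sub contDiff_id)
      have hd := hD (fun y => KR n ε R (x - y)) hφc (fun y => KR_nonneg hε _)
      have e1 : ∀ y, lap (fun y => KR n ε R (x - y)) y = lap (KR n ε R) (x - y) := by
        intro y
        rw [e0, lap_affine (kc.of_le two_le_inf)]
        rw [neg_one_smul, ← sub_eq_add_neg]; ring
      have e2 : - ∫ y, W y * lap (fun y => KR n ε R (x - y)) y = cv W (psi n ε) x := by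
        unfold cv
        rw [← integral_neg]
        congr 1; ext y
        rw [e1]
        by_cases hy : W y = 0
        · rw [hy]; ring
        · rw [lap_KR_in hε hR0]
          · ring
          · have := hρ y hy
            have := norm_sub_le x y
            linarith
      rw [e2] at hd
      exact hd
    have h4 : ∫ x in Metric.closedBall (0 : E n) ρ, |cv W (psi n ε) x| ^ q
        ≤ ∫ x, |cv G (KR n ε R) x| ^ q := by
      have ci : Integrable (fun x => |cv G (KR n ε R) x| ^ q) := by
        refine Continuous.integrable_of_hasCompactSupport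
          (wc.continuous.abs.rpow_const fun x => Or.inr hq.le) ?_
        refine ws.mono' ?_
        intro x hx
        refine subset_tsupport _ ?_
        intro h0
        simp only [Function.mem_support] at hx
        apply hx
        rw [h0, abs_zero, Real.zero_rpow hq.ne']
      calc ∫ x in Metric.closedBall (0 : E n) ρ, |cv W (psi n ε) x| ^ q
          ≤ ∫ x in Metric.closedBall (0 : E n) ρ, |cv G (KR n ε R) x| ^ q := by
            refine integral_mono_of_nonneg (Eventually.of_forall fun x => by positivity)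
              ci.integrableOn ?_
            exact ae_restrict_of_forall_mem Metric.isClosed_closedBall.measurableSet h3
        _ ≤ ∫ x, |cv G (KR n ε R) x| ^ q :=
            setIntegral_le_integral ci (Eventually.of_forall fun x => by positivity)
    calc S * (∫ x in Metric.closedBall (0 : E n) ρ, |cv W (psi n ε) x| ^ q) ^ (2 / q)
        ≤ S * (∫ x, |cv G (KR n ε R) x| ^ q) ^ (2 / q) := by
          refine mul_le_mul_of_nonneg_left ?_ hS0
          refine Real.rpow_le_rpow (integral_nonneg fun x => by positivity) h4 (by positivity)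
      _ ≤ ∫ x, lap (cv G (KR n ε R)) x ^ 2 := h1
      _ ≤ _ := h2
  -- let `R → ∞`, then `τ → 0`
  have hn1 : n ≠ 0 := by omega
  have step2 : ∀ ε : ℝ, 0 < ε →
      S * (∫ x in Metric.closedBall (0 : E n) ρ, |cv W (psi n ε) x| ^ q) ^ (2 / q)
        ≤ c ^ 2 * ∫ x, G x ^ 2 := by
    intro ε hε
    have s1 : ∀ τ : ℝ, 0 < τ →
        S * (∫ x in Metric.closedBall (0 : E n) ρ, |cv W (psi n ε) x| ^ q) ^ (2 / q)
          ≤ (1 + τ) * (c ^ 2 * ∫ x, G x ^ 2) := by
      intro τ hτ
      have t1 : Tendsto (fun R : ℝ => (R ^ n)⁻¹) atTop (𝓝 0) :=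
        (tendsto_pow_atTop hn1).inv_tendsto_atTop
      have t2 : Tendsto (fun R : ℝ => (1 + τ) * (c ^ 2 * ∫ x, G x ^ 2)
          + (1 + τ⁻¹) * ((∫ x, G x) ^ 2 * (C * (R ^ n)⁻¹))) atTop
          (𝓝 ((1 + τ) * (c ^ 2 * ∫ x, G x ^ 2)
          + (1 + τ⁻¹) * ((∫ x, G x) ^ 2 * (C * 0)))) :=
        tendsto_const_nhds.add (((t1.const_mul C).const_mul _).const_mul _)
      rw [mul_zero, mul_zero, mul_zero, add_zero] at t2
      refine ge_of_tendsto t2 ?_
      filter_upwards [eventually_gt_atTop (2 * ρ)] with R hR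
      exact step1 ε R τ hε hR hτ
    have t3 : Tendsto (fun τ : ℝ => (1 + τ) * (c ^ 2 * ∫ x, G x ^ 2)) (𝓝[>] 0)
        (𝓝 ((1 + 0) * (c ^ 2 * ∫ x, G x ^ 2))) := by
      have : Continuous (fun τ : ℝ => (1 + τ) * (c ^ 2 * ∫ x, G x ^ 2)) := by fun_prop
      exact (this.tendsto 0).mono_left nhdsWithin_le_nhds
    rw [add_zero, one_mul] at t3
    refine ge_of_tendsto t3 ?_
    filter_upwards [self_mem_nhdsWithin] with τ hτ
    exact s1 τ hτ
  -- let `ε → 0`
  have lim1 : Tendsto (fun k : ℕ =>
      ∫ x in Metric.closedBall (0 : E n) ρ, |cv W (psi n (1 / ((k:ℝ) + 1))) x| ^ q) atTop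
      (𝓝 (∫ x in Metric.closedBall (0 : E n) ρ, |c * W x| ^ q)) := by
    have hpos : ∀ k : ℕ, 0 < 1 / ((k:ℝ) + 1) := fun k => by positivity
    refine tendsto_integral_of_dominated_convergence (fun _ => (MW * c) ^ q) ?_ ?_ ?_ ?_
    · intro k
      have h1 : AEStronglyMeasurable (cv W (psi n (1 / ((k:ℝ) + 1)))) volume := by
        have h1 : AEStronglyMeasurable
            (fun p : E n × E n => W p.2 * psi n (1 / ((k:ℝ) + 1)) (p.1 - p.2))
            (volume.prod volume) :=
          ((hW.comp continuous_snd).mul ((psi_continuous (hpos k)).comp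
            (continuous_fst.sub continuous_snd))).aestronglyMeasurable
        exact h1.integral_prod_right'
      have h2 : Continuous (fun t : ℝ => |t| ^ q) :=
        continuous_abs.rpow_const fun x => Or.inr hq.le
      exact (h2.comp_aestronglyMeasurable h1).restrict
    · exact integrableOn_const (isCompact_closedBall _ _).measure_lt_top.ne
    · intro k
      refine Eventually.of_forall fun x => ?_
      rw [Real.norm_of_nonneg (by positivity)]
      refine Real.rpow_le_rpow (abs_nonneg _) ?_ hq.le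
      rw [hcdef]
      exact cv_psi_bound hn (hpos k) hW hMW x
    · refine Eventually.of_forall fun x => ?_
      have h2 : Continuous (fun t : ℝ => |t| ^ q) :=
        continuous_abs.rpow_const fun x => Or.inr hq.le
      rw [hcdef]
      exact (h2.tendsto _).comp (cv_psi_tendsto hn hW hMW x)
  have e1 : ∫ x in Metric.closedBall (0 : E n) ρ, |c * W x| ^ q = c ^ q * ∫ x, |W x| ^ q := by
    rw [setIntegral_eq_integral_of_forall_compl_eq_zero]
    · rw [← integral_const_mul]
      congr 1; ext x
      rw [abs_mul, abs_of_pos hc, Real.mul_rpow hc.le (abs_nonneg _)]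
    · intro x hx
      have : W x = 0 := by
        by_contra h
        exact hx (mem_closedBall_zero_iff.mpr (hρ x h))
      rw [this, mul_zero, abs_zero, Real.zero_rpow hq.ne']
  have lim2 := ((lim1.rpow_const (p := 2 / q) (Or.inr (by positivity))).const_mul S)
  rw [e1] at lim2
  have fin := le_of_tendsto' lim2 (fun k => step2 _ (by positivity))
  have e2 : (c ^ q * ∫ x, |W x| ^ q) ^ (2 / q) = c ^ 2 * (∫ x, |W x| ^ q) ^ (2 / q) := by
    rw [Real.mul_rpow (by positivity) (integral_nonneg fun x => by positivity),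
      ← Real.rpow_mul hc.le]
    congr 1
    rw [← Real.rpow_natCast c 2]
    congr 1
    field_simp
    norm_num
  rw [e2] at fin
  have hc2 : 0 < c ^ 2 := by positivity
  refine le_of_mul_le_mul_left ?_ hc2
  calc c ^ 2 * (S * (∫ x, |W x| ^ q) ^ (2 / q)) = S * (c ^ 2 * (∫ x, |W x| ^ q) ^ (2 / q)) := by
        ring
    _ ≤ _ := fin

end Pool.Agent.Q68.BC
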