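import Pool.Agent.Q68.BC.Lap
open MeasureTheory Set Filter Topology
open scoped Convolution ContDiff
noncomputable section
namespace Pool.Agent.Q68.BC

variable {n : ℕ}

/-- Convolution. -/
def cv (G k : E n → ℝ) (x : E n) : ℝ := ∫ y, G y * k (x - y)

lemma cv_eq (G k : E n → ℝ) : cv G k = G ⋆[ContinuousLinearMap.mul ℝ ℝ, volume] k := rfl

lemma cv_contDiff {G k : E n → ℝ} (hG : LocallyIntegrable G) (hk : ContDiff ℝ ∞ k)
    (hs : HasCompactSupport k) : ContDiff ℝ ∞ (cv G k) := by
  rw [cv_eq]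
  exact hs.contDiff_convolution_right _ hG hk

lemma cv_support {G k : E n → ℝ} (hG : HasCompactSupport G) (hs : HasCompactSupport k) :
    HasCompactSupport (cv G k) := by
  rw [cv_eq]
  exact hG.convolution _ hs

lemma cv_integrable {G k : E n → ℝ} (hG : LocallyIntegrable G) (hk : Continuous k)
    (hs : HasCompactSupport k) (x : E n) : Integrable (fun y => G y * k (x - y)) :=
  hs.convolutionExists_right (ContinuousLinearMap.mul ℝ ℝ) hG hk x

lemma pd_cv {G k : E n → ℝ} (hG : LocallyIntegrable G) (hk : ContDiff ℝ 1 k)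
    (hs : HasCompactSupport k) (i : Fin n) : pd i (cv G k) = cv G (pd i k) := by
  ext x
  have h1 := hs.hasFDerivAt_convolution_right (ContinuousLinearMap.mul ℝ ℝ) hG hk x
  have h2 : fderiv ℝ (cv G k) x
      = (G ⋆[(ContinuousLinearMap.mul ℝ ℝ).precompR (E n), volume] fderiv ℝ k) x := h1.fderiv
  unfold pd
  rw [h2]
  have h3 := convolution_precompR_apply (ContinuousLinearMap.mul ℝ ℝ) hG (hs.fderiv (𝕜 := ℝ))
    (hk.continuous_fderiv one_ne_zero) x (ev i)
  rw [h3]
  rfl

lemma lap_cv {G k : E n → ℝ} (hG : LocallyIntegrable G) (hk : ContDiff ℝ 2 k)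
    (hs : HasCompactSupport k) : lap (cv G k) = cv G (lap k) := by
  ext x
  have h1 : ∀ i, pd i (pd i (cv G k)) x = cv G (pd i (pd i k)) x := by
    intro i
    rw [pd_cv hG (hk.of_le (by norm_num)) hs i,
      pd_cv hG (pd_contDiff hk (by norm_num) i) (pd_support hs i) i]
  unfold lap
  rw [Finset.sum_congr rfl fun i _ => h1 i]
  unfold cv
  rw [← integral_finsetSum]
  · congr 1; ext y; rw [Finset.mul_sum]
  · intro i _
    have := cv_integrable hG (k := pd i (pd i k))
      (pd_contDiff (m := 0) (pd_contDiff (m := 1) hk (by norm_num) i) (by norm_num) i).continuous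
      (pd_support (pd_support hs i) i) x
    exact this

/-- Cauchy-Schwarz for a weight. -/
lemma cs_weight {ψ a : E n → ℝ} (hψ : Integrable ψ) (h0 : ∀ x, 0 ≤ ψ x) (ham : Measurable a)
    {C : ℝ} (ha : ∀ x, |a x| ≤ C) :
    (∫ y, ψ y * a y) ^ 2 ≤ (∫ y, ψ y) * ∫ y, ψ y * a y ^ 2 := by
  have i1 : Integrable (fun y => ψ y * a y) :=
    hψ.mul_bdd (c := C) ham.aestronglyMeasurable (Eventually.of_forall ha)
  have i2 : Integrable (fun y => ψ y * a y ^ 2) := by
    refine hψ.mul_bdd (c := C ^ 2) (ham.pow_const 2).aestronglyMeasurable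
      (Eventually.of_forall fun x => ?_)
    rw [Real.norm_eq_abs, abs_pow]
    exact pow_le_pow_left₀ (abs_nonneg _) (ha x) 2
  have key : ∀ m : ℝ, 0 ≤ (∫ y, ψ y) * (m * m) + (-2 * ∫ y, ψ y * a y) * m
      + ∫ y, ψ y * a y ^ 2 := by
    intro m
    have e : ∫ y, ψ y * (a y - m) ^ 2 = (∫ y, ψ y) * (m * m) + (-2 * ∫ y, ψ y * a y) * m
      + ∫ y, ψ y * a y ^ 2 := by
      have e1 : (fun y => ψ y * (a y - m) ^ 2)
          = fun y => ψ y * (m * m) + (ψ y * a y) * (-2 * m) + ψ y * a y ^ 2 := by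
        ext y; ring
      have j1 : Integrable (fun y => ψ y * (m * m) + (ψ y * a y) * (-2 * m)) :=
        (hψ.mul_const _).add (i1.mul_const _)
      rw [e1, integral_add j1 i2,
        integral_add (hψ.mul_const _) (i1.mul_const _), integral_mul_const, integral_mul_const]
      ring
    rw [← e]
    exact integral_nonneg fun y => mul_nonneg (h0 y) (sq_nonneg _)
  have := discrim_le_zero key
  unfold discrim at this
  nlinarith

/-- Young's inequality for convolution with an integrable weight. -/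
lemma young {ψ g : E n → ℝ} (hψ : Integrable ψ) (h0 : ∀ x, 0 ≤ ψ x) (hgm : Measurable g)
    {C : ℝ} (hg : ∀ x, |g x| ≤ C) (hg2 : Integrable (fun x => g x ^ 2)) :
    Integrable (fun x => (cv ψ g x) ^ 2) ∧
    ∫ x, (cv ψ g x) ^ 2 ≤ (∫ y, ψ y) ^ 2 * ∫ x, g x ^ 2 := by
  have hp : ∀ x, (cv ψ g x) ^ 2 ≤ (∫ y, ψ y) * cv ψ (fun z => g z ^ 2) x := by
    intro x
    exact cs_weight hψ h0 (hgm.comp (measurable_const.sub measurable_id)) (fun y => hg _)
  have hI : Integrable (cv ψ (fun z => g z ^ 2)) := by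
    rw [cv_eq]
    exact hψ.integrable_convolution _ hg2
  have hI2 : ∫ x, cv ψ (fun z => g z ^ 2) x = (∫ y, ψ y) * ∫ x, g x ^ 2 := by
    rw [cv_eq, integral_convolution _ hψ hg2]; rfl
  have hm : AEStronglyMeasurable (cv ψ g) := by
    have h1 : AEStronglyMeasurable (fun p : E n × E n => ψ p.2 * g (p.1 - p.2))
        (volume.prod volume) := by
      refine (hψ.aestronglyMeasurable.comp_snd).mul ?_
      exact (hgm.comp (measurable_fst.sub measurable_snd)).aestronglyMeasurable
    exact h1.integral_prod_right'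
  constructor
  · refine Integrable.mono' (hI.const_mul (∫ y, ψ y)) (hm.pow 2) (Eventually.of_forall fun x => ?_)
    rw [Real.norm_of_nonneg (sq_nonneg _)]
    exact hp x
  · calc ∫ x, (cv ψ g x) ^ 2 ≤ ∫ x, (∫ y, ψ y) * cv ψ (fun z => g z ^ 2) x :=
        integral_mono_of_nonneg (Eventually.of_forall fun x => sq_nonneg _) (hI.const_mul _)
          (Eventually.of_forall hp)
      _ = (∫ y, ψ y) ^ 2 * ∫ x, g x ^ 2 := by rw [integral_const_mul, hI2]; ring

/-- Commutativity of the convolution. -/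
lemma cv_comm (G k : E n → ℝ) : cv G k = cv k G := by
  ext x
  unfold cv
  rw [← integral_sub_left_eq_self (fun y => G y * k (x - y)) volume x]
  congr 1; ext y
  rw [sub_sub_cancel, mul_comm]

end Pool.Agent.Q68.BC
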