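import Mathlib
open MeasureTheory Set Filter Topology
noncomputable section
namespace Pool.Agent.Q68.BC

variable {n : ℕ}

/-- Euclidean space. -/
abbrev E (n : ℕ) := EuclideanSpace ℝ (Fin n)

/-- The coordinate vectors. -/
def ev (i : Fin n) : E n := EuclideanSpace.single i 1

/-- The partial derivative in the direction of the coordinate `i`. -/
def pd (i : Fin n) (f : E n → ℝ) (x : E n) : ℝ := fderiv ℝ f x (ev i)

/-- The Laplacian: the sum of the pure second partial derivatives. -/
def lap (f : E n → ℝ) (x : E n) : ℝ := ∑ i, pd i (pd i f) x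

lemma pd_contDiff {f : E n → ℝ} {m k : WithTop ℕ∞} (hf : ContDiff ℝ k f) (h : m + 1 ≤ k)
    (i : Fin n) : ContDiff ℝ m (pd i f) :=
  (hf.fderiv_right h).clm_apply contDiff_const

lemma pd_contDiffAt {f : E n → ℝ} {x : E n} {m k : WithTop ℕ∞} (hf : ContDiffAt ℝ k f x)
    (h : m + 1 ≤ k) (i : Fin n) : ContDiffAt ℝ m (pd i f) x :=
  (hf.fderiv_right h).clm_apply contDiffAt_const

lemma lap_continuous {f : E n → ℝ} (hf : ContDiff ℝ 2 f) : Continuous (lap f) := by
  unfold lap
  refine continuous_finsetSum _ fun i _ => ?_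
  exact (pd_contDiff (m := 0) (pd_contDiff (m := 1) hf (by norm_num) i) (by norm_num) i).continuous

lemma pd_support {f : E n → ℝ} (hf : HasCompactSupport f) (i : Fin n) :
    HasCompactSupport (pd i f) := by
  have := hf.fderiv (𝕜 := ℝ)
  refine this.mono ?_
  intro x hx
  simp only [Function.mem_support, pd] at hx ⊢
  intro h; rw [h] at hx; simp at hx

lemma lap_support {f : E n → ℝ} (hf : HasCompactSupport f) : HasCompactSupport (lap f) := by
  have h1 : ∀ i ∈ (Finset.univ : Finset (Fin n)), HasCompactSupport (pd i (pd i f)) :=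
    fun i _ => pd_support (pd_support hf i) i
  have : lap f = fun x => ∑ i, pd i (pd i f) x := rfl
  rw [this]
  refine HasCompactSupport.intro (K := tsupport f) hf ?_
  intro x hx
  refine Finset.sum_eq_zero fun i _ => ?_
  have e : f =ᶠ[𝓝 x] fun _ => 0 := by
    have := (isClosed_tsupport f).isOpen_compl.mem_nhds hx
    filter_upwards [this] with y hy
    exact image_eq_zero_of_notMem_tsupport hy
  have e1 : pd i f =ᶠ[𝓝 x] fun _ => 0 := by
    filter_upwards [e.eventuallyEq_nhds] with y hy
    unfold pd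
    rw [hy.fderiv_eq]; simp
  unfold pd
  have e2 : fderiv ℝ (fun x => fderiv ℝ f x (ev i)) x = fderiv ℝ (fun _ : E n => (0:ℝ)) x :=
    Filter.EventuallyEq.fderiv_eq e1
  rw [e2]; simp

lemma pd_congr {f g : E n → ℝ} {x : E n} (h : f =ᶠ[𝓝 x] g) (i : Fin n) : pd i f x = pd i g x := by
  unfold pd; rw [h.fderiv_eq]

lemma pd_congr' {f g : E n → ℝ} {x : E n} (h : f =ᶠ[𝓝 x] g) (i : Fin n) :
    pd i f =ᶠ[𝓝 x] pd i g := by
  filter_upwards [h.eventuallyEq_nhds] with y hy
  exact pd_congr hy i

lemma lap_congr {f g : E n → ℝ} {x : E n} (h : f =ᶠ[𝓝 x] g) : lap f x = lap g x := by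
  unfold lap
  exact Finset.sum_congr rfl fun i _ => pd_congr (pd_congr' h i) i

lemma pd_const (c : ℝ) (i : Fin n) (x : E n) : pd i (fun _ => c) x = 0 := by
  unfold pd; simp

lemma lap_const (c : ℝ) (x : E n) : lap (fun _ : E n => c) x = 0 := by
  unfold lap
  refine Finset.sum_eq_zero fun i _ => ?_
  have : pd i (fun _ : E n => c) = fun _ => 0 := by ext y; exact pd_const c i y
  rw [this]; exact pd_const 0 i x

lemma pd_affine {g : E n → ℝ} (b : E n) (a : ℝ) (i : Fin n) (y : E n)
    (hg : DifferentiableAt ℝ g (b + a • y)) :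
    pd i (fun y => g (b + a • y)) y = a * pd i g (b + a • y) := by
  unfold pd
  have h1 : HasFDerivAt (fun y : E n => b + a • y) (a • ContinuousLinearMap.id ℝ (E n)) y := by
    have := ((hasFDerivAt_id (𝕜 := ℝ) y).const_smul a).const_add b
    simpa using this
  have h2 := hg.hasFDerivAt.comp y h1
  have h3 : fderiv ℝ (fun y => g (b + a • y)) y =
      (fderiv ℝ g (b + a • y)).comp (a • ContinuousLinearMap.id ℝ (E n)) := h2.fderiv
  rw [h3]; simp

lemma lap_affine {g : E n → ℝ} (hg : ContDiff ℝ 2 g) (b : E n) (a : ℝ) (y : E n) :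
    lap (fun y => g (b + a • y)) y = a ^ 2 * lap g (b + a • y) := by
  unfold lap
  rw [Finset.mul_sum]
  refine Finset.sum_congr rfl fun i _ => ?_
  have h1 : pd i (fun y => g (b + a • y)) = fun y => a * (fun y => pd i g (b + a • y)) y := by
    ext z
    exact pd_affine b a i z ((hg.differentiable (by norm_num)) _)
  have hd : ContDiff ℝ 1 (pd i g) := pd_contDiff hg (by norm_num) i
  rw [h1]
  have h2 : pd i (fun y => a * (fun y => pd i g (b + a • y)) y) y
      = a * pd i (fun y => pd i g (b + a • y)) y := by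
    have hdd : DifferentiableAt ℝ (fun y => pd i g (b + a • y)) y := by
      have : ContDiff ℝ 1 (fun y : E n => pd i g (b + a • y)) :=
        hd.comp (contDiff_const.add (contDiff_id.const_smul a))
      exact (this.differentiable (by norm_num)) y
    unfold pd at hdd ⊢
    rw [fderiv_const_mul hdd]; simp
  rw [h2, pd_affine b a i y ((hd.differentiable (by norm_num)) _)]
  ring

lemma pd_mul {f g : E n → ℝ} {x : E n} (hf : DifferentiableAt ℝ f x) (hg : DifferentiableAt ℝ g x)
    (i : Fin n) : pd i (fun y => f y * g y) x = pd i f x * g x + f x * pd i g x := by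
  unfold pd
  rw [fderiv_fun_mul hf hg]
  simp; ring

lemma pd_add {f g : E n → ℝ} {x : E n} (hf : DifferentiableAt ℝ f x) (hg : DifferentiableAt ℝ g x)
    (i : Fin n) : pd i (fun y => f y + g y) x = pd i f x + pd i g x := by
  unfold pd
  rw [fderiv_fun_add hf hg]; simp

lemma lap_mul {f g : E n → ℝ} (hf : ContDiff ℝ 2 f) (hg : ContDiff ℝ 2 g) (x : E n) :
    lap (fun y => f y * g y) x = lap f x * g x + 2 * ∑ i, pd i f x * pd i g x + f x * lap g x := by
  unfold lap
  rw [Finset.sum_mul, Finset.mul_sum, Finset.mul_sum, ← Finset.sum_add_distrib,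
    ← Finset.sum_add_distrib]
  refine Finset.sum_congr rfl fun i _ => ?_
  have df : Differentiable ℝ f := hf.differentiable (by norm_num)
  have dg : Differentiable ℝ g := hg.differentiable (by norm_num)
  have df1 : Differentiable ℝ (pd i f) :=
    (pd_contDiff (m := 1) hf (by norm_num) i).differentiable (by norm_num)
  have dg1 : Differentiable ℝ (pd i g) :=
    (pd_contDiff (m := 1) hg (by norm_num) i).differentiable (by norm_num)
  have e : pd i (fun y => f y * g y) = fun y => pd i f y * g y + f y * pd i g y := by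
    ext y; exact pd_mul (df y) (dg y) i
  have e1 := pd_add (f := fun y => pd i f y * g y) (g := fun y => f y * pd i g y) (x := x)
    ((df1 x).mul (dg x)) ((df x).mul (dg1 x)) i
  rw [e, e1, pd_mul (df1 x) (dg x), pd_mul (df x) (dg1 x)]
  ring

/-- The chain rule for the Laplacian. -/
lemma lap_comp {u : E n → ℝ} {x : E n} (hu : ContDiffAt ℝ 2 u x) {β β' : ℝ → ℝ} {β'' : ℝ}
    (h1 : ∀ t, HasDerivAt β (β' t) t) (h2 : HasDerivAt β' β'' (u x)) :
    lap (fun y => β (u y)) x = β'' * ∑ i, (pd i u x) ^ 2 + β' (u x) * lap u x := by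
  unfold lap
  rw [Finset.mul_sum, Finset.mul_sum, ← Finset.sum_add_distrib]
  refine Finset.sum_congr rfl fun i _ => ?_
  have hev : ∀ᶠ y in 𝓝 x, ContDiffAt ℝ 2 u y := hu.eventually (by norm_num)
  have e : pd i (fun y => β (u y)) =ᶠ[𝓝 x] fun y => β' (u y) * pd i u y := by
    filter_upwards [hev] with y hy
    have hd : DifferentiableAt ℝ u y := hy.differentiableAt (by norm_num)
    unfold pd
    have := (h1 (u y)).comp_hasFDerivAt y hd.hasFDerivAt
    have h5 : fderiv ℝ (fun y => β (u y)) y = β' (u y) • fderiv ℝ u y := this.fderiv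
    rw [h5]
    simp
  rw [pd_congr e]
  have hd : DifferentiableAt ℝ u x := hu.differentiableAt (by norm_num)
  have hd1 : DifferentiableAt ℝ (pd i u) x :=
    (pd_contDiffAt (m := 1) hu (by norm_num) i).differentiableAt (by norm_num)
  have hc : HasFDerivAt (fun y => β' (u y)) (β'' • fderiv ℝ u x) x :=
    h2.comp_hasFDerivAt x hd.hasFDerivAt
  rw [pd_mul hc.differentiableAt hd1]
  have h3 : pd i (fun y => β' (u y)) x = β'' * pd i u x := by
    unfold pd
    rw [hc.fderiv]; simp
  rw [h3]; ring

/-- Integration by parts, one derivative. -/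
lemma ibp_one {f g : E n → ℝ} (hf : ContDiff ℝ 1 f) (hg : ContDiff ℝ 1 g)
    (hs : HasCompactSupport f) (i : Fin n) :
    ∫ x, f x * pd i g x = - ∫ x, pd i f x * g x := by
  have cf := hf.continuous
  have cg := hg.continuous
  have cpf : Continuous (pd i f) := (pd_contDiff (m := 0) hf (by norm_num) i).continuous
  have cpg : Continuous (pd i g) := (pd_contDiff (m := 0) hg (by norm_num) i).continuous
  refine integral_mul_fderiv_eq_neg_fderiv_mul_of_integrable (v := ev i) ?_ ?_ ?_ ?_ ?_
  · exact (cpf.mul cg).integrable_of_hasCompactSupport ((pd_support hs i).mul_right)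
  · exact (cf.mul cpg).integrable_of_hasCompactSupport (hs.mul_right)
  · exact (cf.mul cg).integrable_of_hasCompactSupport (hs.mul_right)
  · exact fun x _ => (hf.differentiable (by norm_num)) x
  · exact fun x _ => (hg.differentiable (by norm_num)) x

lemma ibp_one' {f g : E n → ℝ} (hf : ContDiff ℝ 1 f) (hg : ContDiff ℝ 1 g)
    (hs : HasCompactSupport g) (i : Fin n) :
    ∫ x, f x * pd i g x = - ∫ x, pd i f x * g x := by
  have cf := hf.continuous
  have cg := hg.continuous
  have cpf : Continuous (pd i f) := (pd_contDiff (m := 0) hf (by norm_num) i).continuous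
  have cpg : Continuous (pd i g) := (pd_contDiff (m := 0) hg (by norm_num) i).continuous
  refine integral_mul_fderiv_eq_neg_fderiv_mul_of_integrable (v := ev i) ?_ ?_ ?_ ?_ ?_
  · exact (cpf.mul cg).integrable_of_hasCompactSupport (hs.mul_left)
  · exact (cf.mul cpg).integrable_of_hasCompactSupport ((pd_support hs i).mul_left)
  · exact (cf.mul cg).integrable_of_hasCompactSupport (hs.mul_left)
  · exact fun x _ => (hf.differentiable (by norm_num)) x
  · exact fun x _ => (hg.differentiable (by norm_num)) x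

/-- Green's second identity on the whole space, one factor compactly supported. -/
lemma green {U φ : E n → ℝ} (hU : ContDiff ℝ 2 U) (hφ : ContDiff ℝ 2 φ)
    (hs : HasCompactSupport U) : ∫ x, U x * lap φ x = ∫ x, lap U x * φ x := by
  have cU := hU.continuous
  have cφ := hφ.continuous
  have a1 : ∀ i, ContDiff ℝ 1 (pd i U) := fun i => pd_contDiff hU (by norm_num) i
  have a2 : ∀ i, ContDiff ℝ 1 (pd i φ) := fun i => pd_contDiff hφ (by norm_num) i
  have a3 : ∀ i, Continuous (pd i (pd i U)) :=
    fun i => (pd_contDiff (m := 0) (a1 i) (by norm_num) i).continuous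
  have a4 : ∀ i, Continuous (pd i (pd i φ)) :=
    fun i => (pd_contDiff (m := 0) (a2 i) (by norm_num) i).continuous
  have l1 : ∫ x, U x * lap φ x = ∑ i, ∫ x, U x * pd i (pd i φ) x := by
    rw [← integral_finsetSum]
    · congr 1; ext x; unfold lap; rw [Finset.mul_sum]
    · intro i _
      exact (cU.mul (a4 i)).integrable_of_hasCompactSupport (hs.mul_right)
  have l2 : ∫ x, lap U x * φ x = ∑ i, ∫ x, pd i (pd i U) x * φ x := by
    rw [← integral_finsetSum]
    · congr 1; ext x; unfold lap; rw [Finset.sum_mul]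
    · intro i _
      exact ((a3 i).mul cφ).integrable_of_hasCompactSupport
        ((pd_support (pd_support hs i) i).mul_right)
  rw [l1, l2]
  refine Finset.sum_congr rfl fun i _ => ?_
  rw [ibp_one (hU.of_le (by norm_num)) (a2 i) hs i,
    ibp_one (a1 i) (hφ.of_le (by norm_num)) (pd_support hs i) i]
  ring

end Pool.Agent.Q68.BC
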