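import Pool.Agent.Q68.BC.Comp
open MeasureTheory Set Filter Topology
open scoped ContDiff
noncomputable section
namespace Pool.Agent.Q68.BC

variable {n : ℕ}

/-- A continuous bump on the line of integral one. -/
def bf (x : ℝ) : ℝ := 6 * max (x * (1 - x)) 0

/-- Its primitive. -/
def th (t : ℝ) : ℝ := ∫ x in (0:ℝ)..t, bf x

/-- The second primitive. -/
def hh (t : ℝ) : ℝ := ∫ x in (0:ℝ)..t, th x

lemma bf_cont : Continuous bf := by unfold bf; fun_prop

lemma bf_nonneg (x : ℝ) : 0 ≤ bf x := by unfold bf; positivity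

lemma bf_neg {x : ℝ} (hx : x ≤ 0) : bf x = 0 := by
  unfold bf; rw [max_eq_right (by nlinarith)]; ring

lemma bf_big {x : ℝ} (hx : 1 ≤ x) : bf x = 0 := by
  unfold bf; rw [max_eq_right (by nlinarith)]; ring

lemma th_deriv (t : ℝ) : HasDerivAt th (bf t) t :=
  intervalIntegral.integral_hasDerivAt_right (bf_cont.intervalIntegrable _ _)
    (bf_cont.stronglyMeasurableAtFilter _ _) bf_cont.continuousAt

lemma th_cont : Continuous th := continuous_iff_continuousAt.2 fun t => (th_deriv t).continuousAt

lemma hh_deriv (t : ℝ) : HasDerivAt hh (th t) t :=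
  intervalIntegral.integral_hasDerivAt_right (th_cont.intervalIntegrable _ _)
    (th_cont.stronglyMeasurableAtFilter _ _) th_cont.continuousAt

lemma th_mono : Monotone th :=
  monotone_of_deriv_nonneg (fun t => (th_deriv t).differentiableAt)
    (fun t => by rw [(th_deriv t).deriv]; exact bf_nonneg t)

lemma th_neg {t : ℝ} (ht : t ≤ 0) : th t = 0 := by
  unfold th
  rw [intervalIntegral.integral_symm, intervalIntegral.integral_of_le ht]
  rw [setIntegral_eq_zero_of_forall_eq_zero, neg_zero]
  intro x hx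
  exact bf_neg hx.2

lemma th_one : th 1 = 1 := by
  have h1 : th 1 = ∫ x in (0:ℝ)..1, (6 * x - 6 * x ^ 2) := by
    unfold th
    refine intervalIntegral.integral_congr fun x hx => ?_
    rw [uIcc_of_le zero_le_one] at hx
    unfold bf
    rw [max_eq_left (mul_nonneg hx.1 (by linarith [hx.2]))]
    ring
  have h2 : ∫ x in (0:ℝ)..1, (6 * x - 6 * x ^ 2) = (3 * 1 ^ 2 - 2 * 1 ^ 3) - (3 * 0 ^ 2 - 2 * 0 ^ 3) := by
    refine intervalIntegral.integral_eq_sub_of_hasDerivAt (f := fun x : ℝ => 3 * x ^ 2 - 2 * x ^ 3)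
      (fun x _ => ?_) ?_
    · have h := ((hasDerivAt_pow 2 x).const_mul 3).sub ((hasDerivAt_pow 3 x).const_mul 2)
      refine h.congr_deriv ?_
      norm_num
      ring
    · exact Continuous.intervalIntegrable (by fun_prop) _ _
  rw [h1, h2]; norm_num

lemma th_nonneg (t : ℝ) : 0 ≤ th t := by
  rcases le_total t 0 with h | h
  · rw [th_neg h]
  · rw [← th_neg (le_refl 0)]; exact th_mono h

lemma th_le_one (t : ℝ) : th t ≤ 1 := by
  rcases le_total t 1 with h | h
  · rw [← th_one]; exact th_mono h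
  · have : th t = th 1 := by
      have h1 : th t = th 1 + ∫ x in (1:ℝ)..t, bf x := by
        unfold th
        rw [intervalIntegral.integral_add_adjacent_intervals (bf_cont.intervalIntegrable _ _)
          (bf_cont.intervalIntegrable _ _)]
      rw [h1, intervalIntegral.integral_of_le h, setIntegral_eq_zero_of_forall_eq_zero, add_zero]
      intro x hx
      exact bf_big hx.1.le
    rw [this, th_one]

lemma th_big {t : ℝ} (h : 1 ≤ t) : th t = 1 :=
  le_antisymm (th_le_one t) (by rw [← th_one]; exact th_mono h)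

lemma hh_neg {t : ℝ} (ht : t ≤ 0) : hh t = 0 := by
  unfold hh
  rw [intervalIntegral.integral_symm, intervalIntegral.integral_of_le ht]
  rw [setIntegral_eq_zero_of_forall_eq_zero, neg_zero]
  intro x hx
  exact th_neg hx.2

lemma hh_mono : Monotone hh :=
  monotone_of_deriv_nonneg (fun t => (hh_deriv t).differentiableAt)
    (fun t => by rw [(hh_deriv t).deriv]; exact th_nonneg t)

lemma hh_nonneg (t : ℝ) : 0 ≤ hh t := by
  rcases le_total t 0 with h | h
  · rw [hh_neg h]
  · rw [← hh_neg (le_refl 0)]; exact hh_mono h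

lemma hh_le {t : ℝ} (ht : 0 ≤ t) : hh t ≤ t := by
  have h1 : Monotone (fun t => t - hh t) := by
    refine monotone_of_deriv_nonneg
      (fun t => (differentiableAt_id.sub (hh_deriv t).differentiableAt)) fun t => ?_
    have : HasDerivAt (fun t => t - hh t) (1 - th t) t := (hasDerivAt_id t).sub (hh_deriv t)
    rw [this.deriv]
    linarith [th_le_one t]
  have := h1 ht
  simp only at this
  rw [hh_neg (le_refl 0)] at this
  linarith

lemma le_hh (t : ℝ) : t - 1 ≤ hh t := by
  rcases le_total t 1 with h | h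
  · linarith [hh_nonneg t]
  · have h1 : hh t = hh 1 + ∫ x in (1:ℝ)..t, th x := by
      unfold hh
      rw [intervalIntegral.integral_add_adjacent_intervals (th_cont.intervalIntegrable _ _)
        (th_cont.intervalIntegrable _ _)]
    have h2 : ∫ x in (1:ℝ)..t, th x = t - 1 := by
      have : ∫ x in (1:ℝ)..t, th x = ∫ x in (1:ℝ)..t, (1:ℝ) := by
        refine intervalIntegral.integral_congr fun x hx => ?_
        rw [uIcc_of_le h] at hx
        exact th_big hx.1
      rw [this]; simp
    rw [h1, h2]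
    linarith [hh_nonneg 1]

/-- The truncated absolute value. -/
def be (κ t : ℝ) : ℝ := κ * (hh (κ⁻¹ * t - 1) + hh (κ⁻¹ * (-t) - 1))

/-- Its derivative. -/
def be' (κ t : ℝ) : ℝ := th (κ⁻¹ * t - 1) - th (κ⁻¹ * (-t) - 1)

/-- Its second derivative. -/
def be'' (κ t : ℝ) : ℝ := κ⁻¹ * (bf (κ⁻¹ * t - 1) + bf (κ⁻¹ * (-t) - 1))

lemma be_deriv {κ : ℝ} (hκ : 0 < κ) (t : ℝ) : HasDerivAt (be κ) (be' κ t) t := by
  have a1 : HasDerivAt (fun t : ℝ => κ⁻¹ * t - 1) (κ⁻¹ * 1) t :=
    ((hasDerivAt_id t).const_mul _).sub_const _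
  have a2 : HasDerivAt (fun t : ℝ => κ⁻¹ * (-t) - 1) (κ⁻¹ * (-1)) t :=
    (((hasDerivAt_id t).neg).const_mul _).sub_const _
  have h1 : HasDerivAt (fun t : ℝ => hh (κ⁻¹ * t - 1)) (th (κ⁻¹ * t - 1) * (κ⁻¹ * 1)) t :=
    (hh_deriv (κ⁻¹ * t - 1)).comp_of_eq t a1 rfl
  have h2 : HasDerivAt (fun t : ℝ => hh (κ⁻¹ * (-t) - 1)) (th (κ⁻¹ * (-t) - 1) * (κ⁻¹ * (-1))) t :=
    (hh_deriv (κ⁻¹ * (-t) - 1)).comp_of_eq t a2 rfl
  have h3 := (h1.add h2).const_mul κ
  refine h3.congr_deriv ?_
  unfold be'
  field_simp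
  ring

lemma be'_deriv {κ : ℝ} (t : ℝ) : HasDerivAt (be' κ) (be'' κ t) t := by
  have a1 : HasDerivAt (fun t : ℝ => κ⁻¹ * t - 1) (κ⁻¹ * 1) t :=
    ((hasDerivAt_id t).const_mul _).sub_const _
  have a2 : HasDerivAt (fun t : ℝ => κ⁻¹ * (-t) - 1) (κ⁻¹ * (-1)) t :=
    (((hasDerivAt_id t).neg).const_mul _).sub_const _
  have h1 : HasDerivAt (fun t : ℝ => th (κ⁻¹ * t - 1)) (bf (κ⁻¹ * t - 1) * (κ⁻¹ * 1)) t :=
    (th_deriv (κ⁻¹ * t - 1)).comp_of_eq t a1 rfl
  have h2 : HasDerivAt (fun t : ℝ => th (κ⁻¹ * (-t) - 1)) (bf (κ⁻¹ * (-t) - 1) * (κ⁻¹ * (-1))) t :=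
    (th_deriv (κ⁻¹ * (-t) - 1)).comp_of_eq t a2 rfl
  have h3 := h1.sub h2
  refine h3.congr_deriv ?_
  unfold be''
  ring

lemma be''_nonneg {κ : ℝ} (hκ : 0 < κ) (t : ℝ) : 0 ≤ be'' κ t := by
  unfold be''
  have := bf_nonneg (κ⁻¹ * t - 1)
  have := bf_nonneg (κ⁻¹ * (-t) - 1)
  positivity

lemma be'_abs {κ : ℝ} (t : ℝ) : |be' κ t| ≤ 1 := by
  unfold be'
  have a1 := th_nonneg (κ⁻¹ * t - 1)
  have a2 := th_nonneg (κ⁻¹ * (-t) - 1)
  have a3 := th_le_one (κ⁻¹ * t - 1)
  have a4 := th_le_one (κ⁻¹ * (-t) - 1)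
  rw [abs_le]; constructor <;> linarith

lemma be_contDiff {κ : ℝ} (hκ : 0 < κ) : ContDiff ℝ 2 (be κ) := by
  have h2 : Continuous (be'' κ) := by
    unfold be''
    exact continuous_const.mul ((bf_cont.comp (by fun_prop)).add (bf_cont.comp (by fun_prop)))
  have h1 : ContDiff ℝ 1 (be' κ) := by
    rw [contDiff_one_iff_deriv]
    refine ⟨fun t => (be'_deriv t).differentiableAt, ?_⟩
    have : deriv (be' κ) = be'' κ := by ext t; exact (be'_deriv t).deriv
    rw [this]; exact h2
  have e : (2 : WithTop ℕ∞) = 1 + 1 := by norm_num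
  rw [e, contDiff_succ_iff_deriv]
  refine ⟨fun t => (be_deriv hκ t).differentiableAt, by simp, ?_⟩
  have : deriv (be κ) = be' κ := by ext t; exact (be_deriv hκ t).deriv
  rw [this]; exact h1

lemma be_zero {κ t : ℝ} (hκ : 0 < κ) (ht : |t| ≤ κ) : be κ t = 0 := by
  have h := abs_le.1 ht
  have a1 : κ⁻¹ * t ≤ 1 := by rw [inv_mul_le_iff₀ hκ]; linarith
  have a2 : κ⁻¹ * (-t) ≤ 1 := by rw [inv_mul_le_iff₀ hκ]; linarith
  unfold be
  rw [hh_neg (by linarith), hh_neg (by linarith)]
  ring

lemma be_neg (κ t : ℝ) : be κ (-t) = be κ t := by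
  unfold be
  rw [neg_neg, add_comm]

lemma be_bounds {κ : ℝ} (hκ : 0 < κ) (t : ℝ) :
    0 ≤ be κ t ∧ be κ t ≤ |t| ∧ |t| - 2 * κ ≤ be κ t := by
  have key : ∀ t : ℝ, 0 ≤ t → 0 ≤ be κ t ∧ be κ t ≤ t ∧ t - 2 * κ ≤ be κ t := by
    intro t ht
    have a2 : κ⁻¹ * (-t) ≤ 0 := by
      have : 0 < κ⁻¹ := by positivity
      nlinarith
    have e : be κ t = κ * hh (κ⁻¹ * t - 1) := by
      unfold be
      rw [hh_neg (t := κ⁻¹ * (-t) - 1) (by linarith), add_zero]
    have hcan : κ * (κ⁻¹ * t) = t := by field_simp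
    rw [e]
    refine ⟨mul_nonneg hκ.le (hh_nonneg _), ?_, ?_⟩
    · rcases le_total (κ⁻¹ * t) 1 with h | h
      · rw [hh_neg (by linarith)]; linarith
      · have := hh_le (t := κ⁻¹ * t - 1) (by linarith)
        have := mul_le_mul_of_nonneg_left this hκ.le
        rw [mul_sub, hcan] at this
        linarith
    · have := le_hh (κ⁻¹ * t - 1)
      have := mul_le_mul_of_nonneg_left this hκ.le
      rw [mul_sub, mul_sub, hcan] at this
      linarith
  rcases le_total 0 t with h | h
  · rw [abs_of_nonneg h]; exact key t h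
  · rw [abs_of_nonpos h, ← be_neg]; exact key (-t) (by linarith)

/-- **Kato's inequality up to the boundary.** -/
theorem kato {C : Set (E n)} (hC : IsOpen C) {u : E n → ℝ} (h1 : ContDiffOn ℝ 2 u C)
    (h2 : ContinuousOn u (closure C)) (h3 : ∀ x ∈ frontier C, u x = 0) {R : ℝ}
    (h4 : ∀ x ∈ C, R < ‖x‖ → u x = 0) {M : ℝ} (hM : ∀ x ∈ C, |lap u x| ≤ M)
    (hGm : Measurable (C.indicator (fun x => |lap u x|)))
    {φ : E n → ℝ} (hφ : ContDiff ℝ 2 φ) (h0 : ∀ x, 0 ≤ φ x) :
    - ∫ x, |C.indicator u x| * lap φ x ≤ ∫ x, C.indicator (fun x => |lap u x|) x * φ x := by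
  have hu : Continuous (C.indicator u) := continuous_indicator h3 h2
  have hball : ∀ x, x ∉ Metric.closedBall (0 : E n) R → C.indicator u x = 0 := by
    intro x hx
    rw [mem_closedBall_zero_iff, not_le] at hx
    by_cases hxC : x ∈ C
    · rw [indicator_of_mem hxC]; exact h4 x hxC hx
    · exact indicator_of_notMem hxC u
  have hus : HasCompactSupport (C.indicator u) :=
    HasCompactSupport.intro (isCompact_closedBall _ _) hball
  have hlap0 : ∀ x ∈ C, R < ‖x‖ → lap u x = 0 := by
    intro x hx hxR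
    have : u =ᶠ[𝓝 x] fun _ => 0 := by
      have a1 : ∀ᶠ z in 𝓝 x, R < ‖z‖ := (continuous_norm.tendsto x).eventually_const_lt hxR
      filter_upwards [a1, hC.mem_nhds hx] with z hz hzC
      exact h4 z hzC hz
    rw [lap_congr this, lap_const]
  -- the integrability of the right side
  have hGi : Integrable (fun x => C.indicator (fun x => |lap u x|) x * φ x) := by
    have hG : Integrable (C.indicator (fun x => |lap u x|)) := by
      have hG1 : IntegrableOn (C.indicator (fun x => |lap u x|))
          (Metric.closedBall (0 : E n) R) := by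
        refine Measure.integrableOn_of_bounded (M := |M|)
          (isCompact_closedBall _ _).measure_lt_top.ne hGm.aestronglyMeasurable
          (Eventually.of_forall fun x => ?_)
        by_cases hx : x ∈ C
        · rw [indicator_of_mem hx, Real.norm_eq_abs, abs_abs]
          exact (hM x hx).trans (le_abs_self M)
        · rw [indicator_of_notMem hx, norm_zero]; positivity
      refine (integrableOn_iff_integrable_of_support_subset ?_).1 hG1
      intro x hx
      by_contra hxb
      rw [mem_closedBall_zero_iff, not_le] at hxb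
      apply hx
      by_cases hxC : x ∈ C
      · rw [indicator_of_mem hxC, hlap0 x hxC hxb, abs_zero]
      · exact indicator_of_notMem hxC _
    -- `φ` may be cut off outside the ball
    have e : (fun x => C.indicator (fun x => |lap u x|) x * φ x)
        = fun x => C.indicator (fun x => |lap u x|) x *
          (Metric.closedBall (0 : E n) R).indicator φ x := by
      ext x
      by_cases hx : x ∈ Metric.closedBall (0 : E n) R
      · rw [indicator_of_mem (s := Metric.closedBall (0 : E n) R) hx]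
      · rw [indicator_of_notMem (s := Metric.closedBall (0 : E n) R) hx]
        rw [mem_closedBall_zero_iff, not_le] at hx
        by_cases hxC : x ∈ C
        · rw [indicator_of_mem hxC, hlap0 x hxC hx]; simp
        · rw [indicator_of_notMem hxC]; simp
    obtain ⟨B, hB⟩ := (isCompact_closedBall (0 : E n) R).exists_bound_of_continuousOn
      hφ.continuous.continuousOn
    rw [e]
    refine hG.mul_bdd (c := |B|) ?_ ?_
    · exact hφ.continuous.aestronglyMeasurable.indicator Metric.isClosed_closedBall.measurableSet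
    · refine Eventually.of_forall fun x => ?_
      by_cases hx : x ∈ Metric.closedBall (0 : E n) R
      · rw [indicator_of_mem hx]; exact (hB x hx).trans (le_abs_self B)
      · rw [indicator_of_notMem hx, norm_zero]; positivity
  have cl : Continuous (lap φ) := lap_continuous hφ
  -- the inequality for the truncations
  have step : ∀ κ : ℝ, 0 < κ → - ∫ x, be κ (C.indicator u x) * lap φ x
      ≤ ∫ x, C.indicator (fun x => |lap u x|) x * φ x := by
    intro κ hκ
    have hloc : ∀ x, x ∉ C → (fun y => be κ (C.indicator u y)) =ᶠ[𝓝 x] fun _ => 0 := by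
      intro x hx
      have a0 : |C.indicator u x| < κ := by rw [indicator_of_notMem hx, abs_zero]; exact hκ
      have a1 : ∀ᶠ z in 𝓝 x, |C.indicator u z| < κ :=
        (hu.abs.tendsto x).eventually_lt_const a0
      filter_upwards [a1] with z hz
      exact be_zero hκ hz.le
    have hloc2 : ∀ x ∈ C, C.indicator u =ᶠ[𝓝 x] u := by
      intro x hx
      filter_upwards [hC.mem_nhds hx] with z hz
      exact indicator_of_mem hz u
    have hU : ContDiff ℝ 2 (fun y => be κ (C.indicator u y)) := by
      rw [contDiff_iff_contDiffAt]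
      intro x
      by_cases hx : x ∈ C
      · have a1 : ContDiffAt ℝ 2 u x := h1.contDiffAt (hC.mem_nhds hx)
        have a2 : ContDiffAt ℝ 2 (fun y => be κ (u y)) x :=
          (be_contDiff hκ).contDiffAt.comp x a1
        refine a2.congr_of_eventuallyEq ?_
        filter_upwards [hloc2 x hx] with z hz
        rw [hz]
      · exact contDiffAt_const.congr_of_eventuallyEq (hloc x hx)
    have hUs : HasCompactSupport (fun y => be κ (C.indicator u y)) := by
      refine HasCompactSupport.intro (isCompact_closedBall (0 : E n) R) ?_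
      intro x hx
      rw [hball x hx]
      exact be_zero hκ (by rw [abs_zero]; exact hκ.le)
    rw [green hU hφ hUs, ← integral_neg]
    have iU : Integrable (fun x => lap (fun y => be κ (C.indicator u y)) x * φ x) :=
      ((lap_continuous hU).mul hφ.continuous).integrable_of_hasCompactSupport
        ((lap_support hUs).mul_right)
    refine integral_mono iU.neg hGi fun x => ?_
    simp only
    by_cases hx : x ∈ C
    · rw [indicator_of_mem hx]
      have e1 : lap (fun y => be κ (C.indicator u y)) x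
          = be'' κ (u x) * ∑ i, (pd i u x) ^ 2 + be' κ (u x) * lap u x := by
        have a1 : ContDiffAt ℝ 2 u x := h1.contDiffAt (hC.mem_nhds hx)
        rw [← lap_comp a1 (be_deriv hκ) (be'_deriv (u x))]
        refine lap_congr ?_
        filter_upwards [hloc2 x hx] with z hz
        rw [hz]
      rw [e1]
      have p1 : 0 ≤ be'' κ (u x) * ∑ i, (pd i u x) ^ 2 :=
        mul_nonneg (be''_nonneg hκ _) (Finset.sum_nonneg fun i _ => sq_nonneg _)
      have p2 : -(be' κ (u x) * lap u x) ≤ |lap u x| := by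
        have := neg_abs_le (be' κ (u x) * lap u x)
        have h5 : |be' κ (u x) * lap u x| ≤ |lap u x| := by
          rw [abs_mul]
          exact mul_le_of_le_one_left (abs_nonneg _) (be'_abs _)
        linarith
      have := h0 x
      nlinarith
    · rw [lap_congr (hloc x hx), lap_const, indicator_of_notMem hx]
      simp
  -- the limit
  have lim : Tendsto (fun k : ℕ => ∫ x, be (1 / ((k:ℝ) + 1)) (C.indicator u x) * lap φ x) atTop
      (𝓝 (∫ x, |C.indicator u x| * lap φ x)) := by
    have hpos : ∀ k : ℕ, 0 < 1 / ((k:ℝ) + 1) := fun k => by positivity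
    refine tendsto_integral_of_dominated_convergence
      (fun x => |C.indicator u x| * |lap φ x|) ?_ ?_ ?_ ?_
    · intro k
      exact (((be_contDiff (hpos k)).continuous.comp hu).mul cl).aestronglyMeasurable
    · refine (hu.abs.mul cl.abs).integrable_of_hasCompactSupport ?_
      exact (hus.comp_left (g := fun t : ℝ => |t|) abs_zero).mul_right
    · intro k
      refine Eventually.of_forall fun x => ?_
      have hb := be_bounds (hpos k) (C.indicator u x)
      rw [norm_mul, Real.norm_of_nonneg hb.1, Real.norm_eq_abs]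
      exact mul_le_mul_of_nonneg_right hb.2.1 (abs_nonneg _)
    · refine Eventually.of_forall fun x => ?_
      refine Tendsto.mul_const _ ?_
      have t1 : Tendsto (fun k : ℕ => |C.indicator u x| - 2 * (1 / ((k:ℝ) + 1))) atTop
          (𝓝 (|C.indicator u x| - 2 * 0)) :=
        tendsto_const_nhds.sub (tendsto_one_div_add_atTop_nhds_zero_nat.const_mul 2)
      rw [mul_zero, sub_zero] at t1
      exact tendsto_of_tendsto_of_tendsto_of_le_of_le t1 tendsto_const_nhds
        (fun k => (be_bounds (hpos k) _).2.2) (fun k => (be_bounds (hpos k) _).2.1)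
  exact le_of_tendsto' lim.neg fun k => step _ (by positivity)

end Pool.Agent.Q68.BC
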